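import Pool.Agent.helper75.PSA.Spec

set_option autoImplicit false

open Polynomial Finset

noncomputable section

namespace Pool.Agent.PSA

theorem FAC : FAC_stmt := by
  intro k
  induction k with
  | zero =>
    intro F hF hd _
    refine ⟨fun j => j.elim0, ?_⟩
    have : F = 1 := hF.natDegree_eq_zero.1 (by simpa using hd)
    rw [this]
    simp [QQ]
  | succ k ih =>
    intro F hF hd hz
    have hdeg : (F.map (algebraMap ℝ ℂ)).degree ≠ 0 := by
      rw [degree_map, degree_eq_natDegree hF.ne_zero, hd]
      exact_mod_cast (by omega : 2 * (k + 1) ≠ 0)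
    obtain ⟨z, hroot⟩ := IsAlgClosed.exists_root _ hdeg
    have hz0 : aeval z F = 0 := by
      rw [← eval_map_algebraMap]
      exact hroot
    obtain ⟨hn, him⟩ := hz z hz0
    have hdvd := Polynomial.quadratic_dvd_of_aeval_eq_zero_im_ne_zero F hz0 him
    rw [hn, one_pow, C_1] at hdvd
    obtain ⟨G, hG⟩ := hdvd
    have hq : (X ^ 2 - C (2 * z.re) * X + 1 : ℝ[X]).Monic := by monicity!
    have hqd : (X ^ 2 - C (2 * z.re) * X + 1 : ℝ[X]).natDegree = 2 := by compute_degree!
    have hGm : G.Monic := by
      rw [hG] at hF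
      exact hq.of_mul_monic_left hF
    have hGd : G.natDegree = 2 * k := by
      have := hd
      rw [hG, hq.natDegree_mul hGm, hqd] at this
      omega
    obtain ⟨w, hw⟩ := ih G hGm hGd (fun y hy => hz y (by rw [hG, map_mul, hy, mul_zero]))
    refine ⟨Fin.cons ⟨z, by simpa [Submonoid.unitSphere, mem_sphere_zero_iff_norm] using hn⟩ w, ?_⟩
    unfold QQ
    rw [Fin.prod_univ_succ]
    simp only [Fin.cons_zero, Fin.cons_succ]
    rw [hG, hw]
    rfl

end Pool.Agent.PSA
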