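import Pool.Agent.helper75.PSA.Spec

set_option autoImplicit false

open Polynomial Finset

noncomputable section

namespace Pool.Agent.PSA

theorem QQC : QQC_stmt := by
  intro k w
  unfold QQ
  rw [Polynomial.map_prod]
  refine Finset.prod_congr rfl fun j _ => ?_
  have h1 : ((w j : ℂ))⁻¹ = (starRingEnd ℂ) (w j : ℂ) := by
    rw [← Circle.coe_inv, Circle.coe_inv_eq_conj]
  have h2 : (w j : ℂ) + ((w j : ℂ))⁻¹ = ((2 * (w j : ℂ).re : ℝ) : ℂ) := by
    rw [h1, Complex.add_conj]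
  have h3 : (w j : ℂ) * ((w j : ℂ))⁻¹ = 1 := mul_inv_cancel₀ (Circle.coe_ne_zero _)
  have h4 : (X - C (w j : ℂ)) * (X - C ((w j : ℂ)⁻¹)) =
      X ^ 2 - C ((w j : ℂ) + ((w j : ℂ))⁻¹) * X + C ((w j : ℂ) * ((w j : ℂ))⁻¹) := by
    rw [C_add, C_mul]
    ring
  rw [h4, h2, h3]
  simp only [Polynomial.map_add, Polynomial.map_sub, Polynomial.map_mul, Polynomial.map_pow,
    Polynomial.map_X, Polynomial.map_C, Polynomial.map_one, C_1]
  rfl

end Pool.Agent.PSA
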