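import Pool.Agent.helper75.PSA.Spec

set_option autoImplicit false

open Polynomial Finset

noncomputable section

namespace Pool.Agent.PSA

/-- one greedy step -/
theorem CRI_step {Λ x y : ℝ} {t : ℤ} (h0 : 0 ≤ y) (h1 : y < 1) (h : Λ * x = y + t) :
    Λ * x - (⌊Λ * x⌋ : ℝ) = y := by
  have h2 : ⌊Λ * x⌋ = t := by
    rw [Int.floor_eq_iff, h]
    constructor <;> linarith
  rw [h2, h]
  ring

/-- the coefficients of `P` in terms of those of `Q` -/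
theorem CRI_coeff (Λ : ℝ) (Q : ℝ[X]) (P : ℤ[X])
    (hP : P.map (Int.castRingHom ℝ) = (X - C Λ) * (X - C Λ⁻¹) * Q) (i : ℕ) :
    (P.coeff (i + 1) : ℝ) = ((X - C Λ⁻¹) * Q).coeff i - Λ * ((X - C Λ⁻¹) * Q).coeff (i + 1) := by
  have h1 : ((P.map (Int.castRingHom ℝ)).coeff (i + 1)) = (P.coeff (i + 1) : ℝ) := by
    rw [coeff_map]
    simp
  rw [← h1, hP, mul_assoc, sub_mul (X : ℝ[X]) (C Λ), coeff_sub, coeff_X_mul, coeff_C_mul]

theorem CRI_coeff2 (a : ℝ) (Q : ℝ[X]) (i : ℕ) :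
    ((X - C a) * Q).coeff (i + 1) = Q.coeff i - a * Q.coeff (i + 1) := by
  rw [sub_mul, coeff_sub, coeff_X_mul, coeff_C_mul]

theorem CRI (hQQB : QQB_stmt) : CRI_stmt := by
  intro k P Λ w hk hΛ hF hM
  obtain ⟨hmon, hdeg, hc0, -, -⟩ := hQQB k w
  set Q := QQ w with hQ
  have hΛ0 : 0 < Λ := by linarith
  have hinv0 : 0 < Λ⁻¹ := inv_pos.2 hΛ0
  have hinv1 : Λ⁻¹ < 1 := inv_lt_one_of_one_lt₀ hΛ
  have hΛi : Λ * Λ⁻¹ = 1 := mul_inv_cancel₀ hΛ0.ne'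
  have hctop : Q.coeff (2 * k) = 1 := by
    have := hmon.coeff_natDegree
    rwa [hdeg] at this
  have hcbig : Q.coeff (2 * k + 1) = 0 := coeff_eq_zero_of_natDegree_lt (by omega)
  -- bounds for all coefficients
  have hb : ∀ i ≤ 2 * k, Λ⁻¹ < Q.coeff i ∧ Q.coeff i ≤ 1 := by
    intro i hi
    rcases Nat.eq_zero_or_pos i with h | h
    · subst h
      rw [hc0]
      exact ⟨hinv1, le_rfl⟩
    · rcases hi.lt_or_eq with h2 | h2
      · obtain ⟨h3, h4⟩ := hM i h h2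
        exact ⟨h3, h4.le⟩
      · subst h2
        rw [hctop]
        exact ⟨hinv1, le_rfl⟩
  -- r i for 1 ≤ i ≤ 2k
  have hrem : ∀ i, i + 1 ≤ 2 * k → rmd Λ (i + 1) = Q.coeff (2 * k - (i + 1)) - Λ⁻¹ * Q.coeff (2 * k - i) ∧
      0 < rmd Λ (i + 1) ∧ rmd Λ (i + 1) < 1 := by
    have hbd : ∀ i, i + 1 ≤ 2 * k → 0 < Q.coeff (2 * k - (i + 1)) - Λ⁻¹ * Q.coeff (2 * k - i) ∧
        Q.coeff (2 * k - (i + 1)) - Λ⁻¹ * Q.coeff (2 * k - i) < 1 := by
      intro i hi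
      obtain ⟨h1, h2⟩ := hb (2 * k - (i + 1)) (by omega)
      obtain ⟨h3, h4⟩ := hb (2 * k - i) (by omega)
      constructor
      · have : Λ⁻¹ * Q.coeff (2 * k - i) ≤ Λ⁻¹ * 1 := mul_le_mul_of_nonneg_left h4 hinv0.le
        linarith
      · have : 0 < Λ⁻¹ * Q.coeff (2 * k - i) := mul_pos hinv0 (hinv0.trans h3)
        linarith
    intro i
    induction i with
    | zero =>
      intro hi
      obtain ⟨hb1, hb2⟩ := hbd 0 hi
      have hco := CRI_coeff Λ Q P hF (2 * k)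
      have e1 : ((X - C Λ⁻¹) * Q).coeff (2 * k) = Q.coeff (2 * k - 1) - Λ⁻¹ * Q.coeff (2 * k) := by
        have := CRI_coeff2 Λ⁻¹ Q (2 * k - 1)
        rwa [show 2 * k - 1 + 1 = 2 * k by omega] at this
      have e2 : ((X - C Λ⁻¹) * Q).coeff (2 * k + 1) = 1 := by
        rw [CRI_coeff2, hcbig, hctop]
        ring
      have h3 : rmd Λ (0 + 1) = Q.coeff (2 * k - (0 + 1)) - Λ⁻¹ * Q.coeff (2 * k - 0) := by
        show Λ * 1 - (⌊Λ * 1⌋ : ℝ) = _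
        refine CRI_step (t := -P.coeff (2 * k + 1)) hb1.le hb2 ?_
        rw [e1, e2] at hco
        push_cast
        rw [hco, Nat.sub_zero]
        ring
      rw [h3]
      exact ⟨rfl, hb1, hb2⟩
    | succ i ih =>
      intro hi
      obtain ⟨ih1, -, -⟩ := ih (by omega)
      obtain ⟨hb1, hb2⟩ := hbd (i + 1) hi
      have hco := CRI_coeff Λ Q P hF (2 * k - (i + 1))
      have e1 : ((X - C Λ⁻¹) * Q).coeff (2 * k - (i + 1)) =
          Q.coeff (2 * k - (i + 1 + 1)) - Λ⁻¹ * Q.coeff (2 * k - (i + 1)) := by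
        have := CRI_coeff2 Λ⁻¹ Q (2 * k - (i + 1 + 1))
        rwa [show 2 * k - (i + 1 + 1) + 1 = 2 * k - (i + 1) by omega] at this
      have e2 : ((X - C Λ⁻¹) * Q).coeff (2 * k - (i + 1) + 1) =
          Q.coeff (2 * k - (i + 1)) - Λ⁻¹ * Q.coeff (2 * k - i) := by
        rw [CRI_coeff2, show 2 * k - (i + 1) + 1 = 2 * k - i by omega]
      have h3 : rmd Λ (i + 1 + 1) =
          Q.coeff (2 * k - (i + 1 + 1)) - Λ⁻¹ * Q.coeff (2 * k - (i + 1)) := by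
        show Λ * rmd Λ (i + 1) - (⌊Λ * rmd Λ (i + 1)⌋ : ℝ) = _
        refine CRI_step (t := -P.coeff (2 * k - (i + 1) + 1)) hb1.le hb2 ?_
        rw [e1, e2] at hco
        push_cast
        rw [hco, ih1]
        ring
      rw [h3]
      exact ⟨rfl, hb1, hb2⟩
  -- the last steps
  have hlast : rmd Λ (2 * k) = 1 - Λ⁻¹ * Q.coeff 1 := by
    have := (hrem (2 * k - 1) (by omega)).1
    rw [show 2 * k - 1 + 1 = 2 * k by omega, Nat.sub_self, hc0,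
      show 2 * k - (2 * k - 1) = 1 by omega] at this
    exact this
  have hl1 : rmd Λ (2 * k + 1) = 1 - Λ⁻¹ := by
    show Λ * rmd Λ (2 * k) - (⌊Λ * rmd Λ (2 * k)⌋ : ℝ) = _
    have hco := CRI_coeff Λ Q P hF 0
    have e0 : ((X - C Λ⁻¹) * Q).coeff 0 = -Λ⁻¹ := by
      rw [mul_coeff_zero, hc0]
      simp
    have e1 : ((X - C Λ⁻¹) * Q).coeff (0 + 1) = 1 - Λ⁻¹ * Q.coeff 1 := by
      rw [CRI_coeff2, hc0]
    rw [e0, e1] at hco
    refine CRI_step (t := -P.coeff (0 + 1) - 1) (by linarith) (by linarith) ?_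
    push_cast
    rw [hco, hlast]
    ring
  have hl2 : rmd Λ (2 * k + 2) = rmd Λ 1 := by
    show Λ * rmd Λ (2 * k + 1) - (⌊Λ * rmd Λ (2 * k + 1)⌋ : ℝ) = Λ * 1 - (⌊Λ * 1⌋ : ℝ)
    rw [hl1]
    have h1 : Λ * (1 - Λ⁻¹) = Λ * 1 - 1 := by rw [mul_sub, hΛi]
    rw [h1, Int.floor_sub_one]
    push_cast
    ring
  -- periodicity
  intro n hn
  induction n, hn using Nat.le_induction with
  | base =>
    rw [show 1 + (2 * k + 2 - 1) = 2 * k + 2 by omega]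
    exact hl2
  | succ n _ ih =>
    rw [show n + 1 + (2 * k + 2 - 1) = n + (2 * k + 2 - 1) + 1 by omega]
    show Λ * rmd Λ (n + (2 * k + 2 - 1)) - (⌊Λ * rmd Λ (n + (2 * k + 2 - 1))⌋ : ℝ) =
      Λ * rmd Λ n - (⌊Λ * rmd Λ n⌋ : ℝ)
    rw [ih]

end Pool.Agent.PSA
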