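import Pool.Agent.helper75.PSA.Spec

set_option autoImplicit false

open Polynomial Finset

noncomputable section

namespace Pool.Agent.PSA

theorem CTN_coeff (a : ℝ) (F : ℝ[X]) (i : ℕ) : ((X ^ 2 - C a * X + 1) * F).coeff i =
    (if 2 ≤ i then F.coeff (i - 2) else 0) - a * (if 1 ≤ i then F.coeff (i - 1) else 0) +
      F.coeff i := by
  have h : (X ^ 2 - C a * X + 1) * F = X ^ 2 * F - C a * (X ^ 1 * F) + F := by ring
  rw [h, coeff_add, coeff_sub, coeff_C_mul, coeff_X_pow_mul', coeff_X_pow_mul']

theorem CTN : CTN_stmt := by
  intro k
  induction k with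
  | zero =>
    intro i
    have h : (fun w : Fin 0 → Circle => (QQ w).coeff i) = fun _ => (1 : ℝ[X]).coeff i := by
      funext w
      simp [QQ]
    rw [h]
    exact continuous_const
  | succ k ih =>
    intro i
    have h : (fun w : Fin (k + 1) → Circle => (QQ w).coeff i) = fun w =>
        (if 2 ≤ i then (QQ (fun j : Fin k => w j.succ)).coeff (i - 2) else 0) -
          (2 * (w 0 : ℂ).re) * (if 1 ≤ i then (QQ (fun j : Fin k => w j.succ)).coeff (i - 1) else 0) +
          (QQ (fun j : Fin k => w j.succ)).coeff i := by
      funext w
      have h : QQ w = (X ^ 2 - C (2 * (w 0 : ℂ).re) * X + 1) * QQ (fun j : Fin k => w j.succ) := by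
        unfold QQ
        rw [Fin.prod_univ_succ]
      rw [h, CTN_coeff]
    rw [h]
    have hsucc : Continuous fun w : Fin (k + 1) → Circle => fun j : Fin k => w j.succ :=
      continuous_pi fun j => continuous_apply _
    have hc : ∀ j, Continuous fun w : Fin (k + 1) → Circle =>
        (QQ (fun j : Fin k => w j.succ)).coeff j := fun j => (ih j).comp hsucc
    have hre : Continuous fun w : Fin (k + 1) → Circle => (2 * (w 0 : ℂ).re : ℝ) :=
      continuous_const.mul (Complex.continuous_re.comp
        (continuous_subtype_val.comp (continuous_apply 0)))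
    refine Continuous.add (Continuous.sub ?_ (hre.mul ?_)) (hc i)
    · split_ifs
      · exact hc _
      · exact continuous_const
    · split_ifs
      · exact hc _
      · exact continuous_const

end Pool.Agent.PSA
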