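import Pool.Agent.helper75.PSA.Spec

set_option autoImplicit false

open Polynomial Finset

noncomputable section

namespace Pool.Agent.PSA

/-- a symmetric integer polynomial has an integer value if the elementary symmetric ones have -/
theorem POW_symm (m : ℕ) (a : Fin m → ℂ)
    (ha : ∀ j, j ≤ m → ∃ b : ℤ, (univ.val.map a).esymm j = (b : ℂ)) (p : MvPolynomial (Fin m) ℤ)
    (hp : p.IsSymmetric) : ∃ b : ℤ, MvPolynomial.aeval a p = (b : ℂ) := by
  obtain ⟨q, hq⟩ := MvPolynomial.esymmAlgHom_surjective (σ := Fin m) (n := m) ℤ (by simp)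
    ⟨p, hp⟩
  have h1 : p = MvPolynomial.aeval (fun i : Fin m => MvPolynomial.esymm (Fin m) ℤ (i + 1)) q := by
    rw [← MvPolynomial.esymmAlgHom_apply, hq]
  have h2 : ∀ i : Fin m, ∃ b : ℤ, MvPolynomial.aeval a (MvPolynomial.esymm (Fin m) ℤ (i + 1)) =
      (b : ℂ) := by
    intro i
    rw [MvPolynomial.aeval_esymm_eq_multiset_esymm]
    exact ha (i + 1) (by omega)
  choose b hb using h2
  refine ⟨MvPolynomial.aeval b q, ?_⟩
  have h3 : MvPolynomial.aeval a p = MvPolynomial.aeval (fun i => ((b i : ℤ) : ℂ)) q := by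
    have h4 : (fun i => ((b i : ℤ) : ℂ)) = fun i : Fin m =>
        MvPolynomial.aeval a (MvPolynomial.esymm (Fin m) ℤ (i + 1)) := by
      funext i
      exact (hb i).symm
    rw [h4, h1]
    rw [← AlgHom.comp_apply]
    congr 1
    refine MvPolynomial.algHom_ext fun i => ?_
    simp
  rw [h3]
  have h5 := MvPolynomial.aeval_algebraMap_apply (B := ℂ) b q
  have h6 : (⇑(algebraMap ℤ ℂ) ∘ b) = fun i => ((b i : ℤ) : ℂ) := by
    funext i
    simp
  rw [h6] at h5
  rw [h5]
  simp

theorem POW : POW_stmt := by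
  intro P s hP N
  obtain ⟨l, rfl⟩ := Quot.exists_rep s
  set m := l.length with hm
  set a : Fin m → ℂ := l.get with hadef
  have hs : (univ.val.map a : Multiset ℂ) = (Quot.mk _ l : Multiset ℂ) := by
    rw [Fin.univ_val_map]
    simp [hadef]
  rw [← hs] at hP ⊢
  have hcard : Multiset.card (univ.val.map a) = m := by simp
  -- the elementary symmetric functions are integers
  have he : ∀ j, j ≤ m → ∃ b : ℤ, (univ.val.map a).esymm j = (b : ℂ) := by
    intro j hj
    have h1 := Multiset.prod_X_sub_C_coeff (univ.val.map a) (k := m - j) (by rw [hcard]; omega)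
    rw [hcard, ← hP, coeff_map] at h1
    rw [show m - (m - j) = j by omega] at h1
    refine ⟨(-1) ^ j * P.coeff (m - j), ?_⟩
    push_cast
    have h2 : ((P.coeff (m - j) : ℤ) : ℂ) = (-1) ^ j * (univ.val.map a).esymm j := by
      rw [← h1]
      simp
    rw [h2, ← mul_assoc, ← mul_pow]
    norm_num
  rw [Multiset.map_map]
  have hG : (Multiset.map ((fun a => X - C (a ^ N)) ∘ a) univ.val).prod =
      ((univ.val.map (fun i => a i ^ N)).map (fun b => X - C b)).prod := by
    rw [Multiset.map_map]
    rfl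
  rw [hG]
  set F := ((univ.val.map (fun i => a i ^ N)).map (fun b => X - C b)).prod with hF
  have hcard2 : Multiset.card (univ.val.map (fun i => a i ^ N)) = m := by simp
  have hlift : F ∈ Polynomial.lifts (Int.castRingHom ℂ) := by
    rw [Polynomial.lifts_iff_coeff_lifts]
    intro k
    rcases Nat.lt_or_ge m k with hk | hk
    · have hdeg : F.natDegree = m := by
        rw [hF, natDegree_multiset_prod_X_sub_C_eq_card, hcard2]
      rw [coeff_eq_zero_of_natDegree_lt (by omega)]
      exact ⟨0, by simp⟩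
    · rw [hF, Multiset.prod_X_sub_C_coeff _ (by rw [hcard2]; exact hk), hcard2]
      have h1 : (univ.val.map (fun i => a i ^ N)).esymm (m - k) =
          MvPolynomial.aeval a (MvPolynomial.expand N (MvPolynomial.esymm (Fin m) ℤ (m - k))) := by
        rw [← MvPolynomial.aeval_esymm_eq_multiset_esymm (Fin m) ℤ, MvPolynomial.expand,
          ← MvPolynomial.aeval_eq_bind₁, ← AlgHom.comp_apply]
        congr 1
        refine MvPolynomial.algHom_ext fun i => ?_
        simp
      obtain ⟨b, hb⟩ := POW_symm m a he _ (show (MvPolynomial.expand N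
        (MvPolynomial.esymm (Fin m) ℤ (m - k))).IsSymmetric from fun e => by
          rw [MvPolynomial.rename_expand, MvPolynomial.esymm_isSymmetric (Fin m) ℤ (m - k) e])
      rw [h1, hb]
      exact ⟨(-1) ^ (m - k) * b, by simp⟩
  obtain ⟨P', hP'⟩ := (Polynomial.mem_lifts _).1 hlift
  exact ⟨P', hP'⟩

end Pool.Agent.PSA
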