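import Pool.Agent.helper75.PSA.Spec

set_option autoImplicit false

open Polynomial Finset

noncomputable section

namespace Pool.Agent.PSA

theorem PR2 (hREC : REC_stmt) (hLWB : LWB_stmt) (hUPB : UPB_stmt) : PR2_stmt := by
  intro d
  by_cases hd : ∃ k : ℕ, 1 ≤ k ∧ d = 2 * k + 2
  · obtain ⟨k, hk, rfl⟩ := hd
    obtain ⟨c, X₀, hc, hL⟩ := hLWB k hk
    obtain ⟨C, hC, hU⟩ := hUPB k hk
    refine ⟨c / C, by positivity, max X₀ 1, fun X hX => ?_⟩
    have hX0 : X₀ ≤ X := (le_max_left _ _).trans hX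
    have hX1 : 1 ≤ X := (le_max_right _ _).trans hX
    obtain ⟨hfin, hcard⟩ := hU X hX1
    obtain ⟨T, hT, hTc⟩ := hL X hX0
    refine ⟨hfin, ?_⟩
    have hsub : (T : Set ℝ) ⊆ SS (2 * k + 2) X ∩ {β | Short (2 * k + 2) β} := by
      intro β hβ
      exact hT β hβ
    have h1 : T.card ≤ (SS (2 * k + 2) X ∩ {β | Short (2 * k + 2) β}).ncard := by
      rw [← Set.ncard_coe_finset]
      exact Set.ncard_le_ncard hsub (hfin.subset Set.inter_subset_left)
    have h2 : (T.card : ℝ) ≤ ((SS (2 * k + 2) X ∩ {β | Short (2 * k + 2) β}).ncard : ℝ) := by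
      exact_mod_cast h1
    refine le_trans ?_ (hTc.trans h2)
    calc c / C * ((SS (2 * k + 2) X).ncard : ℝ) ≤ c / C * (C * X ^ (k + 1)) :=
          mul_le_mul_of_nonneg_left hcard (by positivity)
      _ = c * X ^ (k + 1) := by field_simp
  · have hempty : ∀ X : ℝ, SS d X = ∅ := by
      intro X
      rw [Set.eq_empty_iff_forall_notMem]
      rintro β ⟨hS, hdeg, -⟩
      obtain ⟨k, hk, hk2, -⟩ := hREC β hS
      exact hd ⟨k, hk, by rw [← hdeg, hk2]⟩
    refine ⟨1, one_pos, 0, fun X _ => ?_⟩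
    rw [hempty X]
    simp

end Pool.Agent.PSA
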