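import Pool.Agent.helper75.PSA.Spec

set_option autoImplicit false

open Polynomial Finset

noncomputable section

namespace Pool.Agent.PSA

/-- the multiset of roots -/
def PWN_s {k : ℕ} (β : ℝ) (w : Fin k → Circle) : Multiset ℂ :=
  (β : ℂ) ::ₘ (β⁻¹ : ℝ) ::ₘ ((univ.val.map fun j => (w j : ℂ)) + univ.val.map fun j => ((w j : ℂ))⁻¹)

theorem PWN_prod (hQQC : QQC_stmt) {k : ℕ} (β : ℝ) (w : Fin k → Circle) :
    (((X - C β) * (X - C β⁻¹) * QQ w : ℝ[X]).map (algebraMap ℝ ℂ)) =
      ((PWN_s β w).map (fun a => X - C a)).prod := by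
  unfold PWN_s
  rw [Multiset.map_cons, Multiset.prod_cons, Multiset.map_cons, Multiset.prod_cons,
    Multiset.map_add, Multiset.prod_add, Multiset.map_map, Multiset.map_map]
  rw [Polynomial.map_mul, hQQC, Finset.prod_mul_distrib, Polynomial.map_mul, Polynomial.map_sub,
    Polynomial.map_sub, Polynomial.map_X, Polynomial.map_C, Polynomial.map_C, mul_assoc]
  rfl

theorem PWN (hPOW : POW_stmt) (hQQC : QQC_stmt) : PWN_stmt := by
  intro k P β w hF N
  have h1 : P.map (Int.castRingHom ℂ) = ((PWN_s β w).map (fun a => X - C a)).prod := by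
    rw [← PWN_prod hQQC]
    unfold Fac at hF
    rw [← hF, Polynomial.map_map]
    congr 1
  obtain ⟨P', hP'⟩ := hPOW P (PWN_s β w) h1 N
  refine ⟨P', ?_⟩
  unfold Fac
  apply Polynomial.map_injective (algebraMap ℝ ℂ) (algebraMap ℝ ℂ).injective
  rw [PWN_prod hQQC, Polynomial.map_map]
  have h2 : (algebraMap ℝ ℂ).comp (Int.castRingHom ℝ) = Int.castRingHom ℂ := RingHom.ext_int _ _
  rw [h2, hP']
  unfold PWN_s
  simp only [Multiset.map_cons, Multiset.map_add, Multiset.map_map, Function.comp_def]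
  congr 1
  simp only [Complex.ofReal_pow, Complex.ofReal_inv, Circle.coe_pow, inv_pow]

end Pool.Agent.PSA
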