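import Pool.Agent.helper75.PSA.SLM
import Pool.Agent.helper75.PSA.PWN

/-! Powers of a Salem number are Salem numbers of the same degree. -/

set_option autoImplicit false

open Polynomial Finset

noncomputable section

namespace Pool.Agent.PSA

theorem PWS_pos {k : ℕ} (w : Fin k → Circle) {x : ℝ} (hx : 1 < x) : 0 < (QQ w).eval x := by
  unfold QQ
  rw [eval_prod]
  refine Finset.prod_pos fun j _ => ?_
  simp only [eval_add, eval_sub, eval_pow, eval_X, eval_mul, eval_C, eval_one]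
  have h1 : |(w j : ℂ).re| ≤ 1 := by
    have := Complex.abs_re_le_norm (w j : ℂ)
    rwa [Circle.norm_coe] at this
  have h2 := (abs_le.1 h1).2
  nlinarith

theorem PWS_monic {k : ℕ} {P : ℤ[X]} {Λ : ℝ} {w : Fin k → Circle} (hQQB : QQB_stmt) (hF : Fac P Λ w) :
    P.Monic ∧ P.natDegree = 2 * k + 2 := by
  obtain ⟨hm, hd, -⟩ := hQQB k w
  have h1 : ((X - C Λ) * (X - C Λ⁻¹) * QQ w : ℝ[X]).Monic :=
    ((monic_X_sub_C _).mul (monic_X_sub_C _)).mul hm
  have h2 : ((X - C Λ) * (X - C Λ⁻¹) * QQ w : ℝ[X]).natDegree = 2 * k + 2 := by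
    rw [((monic_X_sub_C Λ).mul (monic_X_sub_C Λ⁻¹)).natDegree_mul hm,
      (monic_X_sub_C Λ).natDegree_mul (monic_X_sub_C Λ⁻¹), natDegree_X_sub_C, natDegree_X_sub_C, hd]
    omega
  unfold Fac at hF
  rw [← hF] at h1 h2
  have hinj : Function.Injective (Int.castRingHom ℝ) := Int.cast_injective
  exact ⟨(Function.Injective.monic_map_iff hinj).2 h1, by rwa [natDegree_map_eq_of_injective hinj] at h2⟩

theorem PWS (hREC : REC_stmt) (hPWN : PWN_stmt) (hQQC : QQC_stmt) (hQQB : QQB_stmt) (hSLM : SLM_stmt) (β : ℝ)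
    (hβ : IsSalem β) (N : ℕ) (hN : 1 ≤ N) :
    IsSalem (β ^ N) ∧ (minpoly ℤ (β ^ N)).natDegree = (minpoly ℤ β).natDegree := by
  obtain ⟨k, hk, hdeg, w, hF⟩ := hREC β hβ
  obtain ⟨P', hP'⟩ := hPWN k _ β w hF N
  obtain ⟨hint, hβ1, -, -⟩ := id hβ
  have hγ1 : 1 < β ^ N := one_lt_pow₀ hβ1 (by omega)
  obtain ⟨hmon, hdeg'⟩ := PWS_monic hQQB hP'
  have hintN : IsIntegral ℤ (β ^ N) := hint.pow N
  have hroot : aeval (β ^ N) P' = 0 := by
    have h1 : aeval ((β ^ N : ℝ) : ℂ) P' = 0 := (SLM_roots hQQC hP' _).2 (Or.inl rfl)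
    have h2 : ((aeval (β ^ N) P' : ℝ) : ℂ) = 0 := by
      rw [← h1]
      exact (Polynomial.aeval_algebraMap_apply ℂ (β ^ N) P').symm
    exact_mod_cast h2
  have hqmon : (minpoly ℤ (β ^ N)).Monic := minpoly.monic hintN
  have hqirr : Irreducible (minpoly ℤ (β ^ N)) := minpoly.irreducible hintN
  obtain ⟨g, hg⟩ : minpoly ℤ (β ^ N) ∣ P' := minpoly.isIntegrallyClosed_dvd hintN hroot
  -- powers of conjugates are roots of the minimal polynomial
  have hconj : ∀ a : ℂ, aeval a (minpoly ℤ β) = 0 → aeval (a ^ N) (minpoly ℤ (β ^ N)) = 0 := by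
    intro a ha
    have h1 : aeval β (expand ℤ N (minpoly ℤ (β ^ N))) = 0 := by
      rw [expand_aeval]
      exact minpoly.aeval ℤ (β ^ N)
    obtain ⟨c, hc⟩ : minpoly ℤ β ∣ expand ℤ N (minpoly ℤ (β ^ N)) := minpoly.isIntegrallyClosed_dvd hint h1
    rw [← expand_aeval, hc, map_mul, ha, zero_mul]
  have hPirr : Irreducible P' := by
    by_cases hgd : g.natDegree = 0
    · have hg1 : g.Monic := hqmon.of_mul_monic_left (by rw [← hg]; exact hmon)
      have hg2 : g = 1 := hg1.natDegree_eq_zero.1 hgd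
      rw [hg, hg2, mul_one]
      exact hqirr
    exfalso
    have hg1 : g.Monic := hqmon.of_mul_monic_left (by rw [← hg]; exact hmon)
    -- a complex root of g
    obtain ⟨z, hz⟩ : ∃ z : ℂ, aeval z g = 0 := by
      have h1 : (g.map (Int.castRingHom ℂ)).degree ≠ 0 := by
        rw [degree_map_eq_of_injective (RingHom.injective_int _)]
        intro h
        exact hgd (natDegree_eq_of_degree_eq_some h)
      obtain ⟨z, hz⟩ := IsAlgClosed.exists_root (g.map (Int.castRingHom ℂ)) h1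
      refine ⟨z, ?_⟩
      rw [IsRoot.def, eval_map] at hz
      rw [aeval_def]
      exact hz
    have hzP : aeval z P' = 0 := by rw [hg, map_mul, hz, mul_zero]
    have hzq : aeval z (minpoly ℤ (β ^ N)) = 0 := by
      have h2 : ∃ a : ℂ, aeval a (minpoly ℤ β) = 0 ∧ z = a ^ N := by
        rcases (SLM_roots hQQC hP' z).1 hzP with h | h | ⟨j, h | h⟩
        · exact ⟨β, (SLM_roots hQQC hF _).2 (Or.inl rfl), by rw [h]; push_cast; rfl⟩
        · exact ⟨((β⁻¹ : ℝ) : ℂ), (SLM_roots hQQC hF _).2 (Or.inr (Or.inl rfl)), by rw [h]; push_cast; rw [inv_pow]⟩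
        · exact ⟨(w j : ℂ), (SLM_roots hQQC hF _).2 (Or.inr (Or.inr ⟨j, Or.inl rfl⟩)), by rw [h, Circle.coe_pow]⟩
        · exact ⟨((w j : ℂ))⁻¹, (SLM_roots hQQC hF _).2 (Or.inr (Or.inr ⟨j, Or.inr rfl⟩)), by
            rw [h, Circle.coe_pow, inv_pow]⟩
      obtain ⟨a, ha, rfl⟩ := h2
      exact hconj a ha
    have hzint : IsIntegral ℤ z := ⟨g, hg1, by rwa [← aeval_def]⟩
    have hzmin : minpoly ℤ z = minpoly ℤ (β ^ N) := by
      obtain ⟨c, hc⟩ : minpoly ℤ z ∣ minpoly ℤ (β ^ N) := minpoly.isIntegrallyClosed_dvd hzint hzq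
      rcases hqirr.isUnit_or_isUnit hc with h | h
      · exact absurd h (minpoly.not_isUnit ℤ z)
      · exact eq_of_monic_of_associated (minpoly.monic hzint) hqmon ⟨h.unit, hc.symm⟩
    obtain ⟨g', hg'⟩ : minpoly ℤ (β ^ N) ∣ g := by
      rw [← hzmin]
      exact minpoly.isIntegrallyClosed_dvd hzint hz
    -- double root
    have hq0 : ((minpoly ℤ (β ^ N)).map (Int.castRingHom ℝ)).IsRoot (β ^ N) := by
      rw [IsRoot.def, eval_map]
      have := minpoly.aeval ℤ (β ^ N)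
      rwa [aeval_def] at this
    obtain ⟨u, hu⟩ := dvd_iff_isRoot.2 hq0
    have hfac := hP'
    unfold Fac at hfac
    rw [hg, hg', Polynomial.map_mul, Polynomial.map_mul, hu] at hfac
    have hX : (X - C (β ^ N) : ℝ[X]) ≠ 0 := (monic_X_sub_C _).ne_zero
    have h3 : u * ((X - C (β ^ N)) * u * (g'.map (Int.castRingHom ℝ))) =
        (X - C (β ^ N)⁻¹) * QQ (fun j => w j ^ N) := by
      apply mul_left_cancel₀ hX
      linear_combination hfac
    have h4 := congrArg (eval (β ^ N)) h3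
    simp only [eval_mul, eval_sub, eval_X, eval_C, sub_self, zero_mul, mul_zero] at h4
    have h5 := PWS_pos (fun j => w j ^ N) hγ1
    have h6 : 0 < β ^ N - (β ^ N)⁻¹ := by
      have := inv_lt_one_of_one_lt₀ hγ1
      linarith
    have := mul_pos h6 h5
    linarith
  obtain ⟨h1, h2⟩ := hSLM k P' (β ^ N) _ hk hγ1 hmon hPirr hP'
  exact ⟨h1, by rw [h2, hdeg', hdeg]⟩

end Pool.Agent.PSA
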