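import Pool.Agent.helper75.PSA.Spec

set_option autoImplicit false

open Polynomial Finset

noncomputable section

namespace Pool.Agent.PSA

/-- the inductive package -/
def QQB_P (k : ℕ) (F : ℝ[X]) : Prop := F.Monic ∧ F.natDegree = 2 * k ∧ F.coeff 0 = 1 ∧
  (∀ i : ℕ, i ≤ 2 * k → F.coeff (2 * k - i) = F.coeff i) ∧ ∀ i : ℕ, |F.coeff i| ≤ 4 ^ k

theorem QQB_c0 (a : ℝ) (F : ℝ[X]) : ((X ^ 2 - C a * X + 1) * F).coeff 0 = F.coeff 0 := by
  rw [mul_coeff_zero]
  simp

theorem QQB_c1 (a : ℝ) (F : ℝ[X]) :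
    ((X ^ 2 - C a * X + 1) * F).coeff 1 = F.coeff 1 - a * F.coeff 0 := by
  have h : (X ^ 2 - C a * X + 1) * F = X * (X * F) - C a * (X * F) + F := by ring
  rw [h, coeff_add, coeff_sub, show (1 : ℕ) = 0 + 1 by rfl, coeff_X_mul, coeff_C_mul, coeff_X_mul,
    mul_coeff_zero]
  simp
  ring

theorem QQB_c2 (a : ℝ) (F : ℝ[X]) (i : ℕ) :
    ((X ^ 2 - C a * X + 1) * F).coeff (i + 2) = F.coeff i - a * F.coeff (i + 1) + F.coeff (i + 2) := by
  have h : (X ^ 2 - C a * X + 1) * F = X * (X * F) - C a * (X * F) + F := by ring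
  rw [h, coeff_add, coeff_sub, show i + 2 = i + 1 + 1 by rfl, coeff_X_mul, coeff_C_mul, coeff_X_mul,
    coeff_X_mul]

theorem QQB_step (k : ℕ) (a : ℝ) (ha : |a| ≤ 2) (F : ℝ[X]) (hF : QQB_P k F) :
    QQB_P (k + 1) ((X ^ 2 - C a * X + 1) * F) := by
  obtain ⟨hm, hd, h0, hs, hb⟩ := hF
  have hq : (X ^ 2 - C a * X + 1 : ℝ[X]).Monic := by monicity!
  have hqd : (X ^ 2 - C a * X + 1 : ℝ[X]).natDegree = 2 := by compute_degree!
  have hdeg : ((X ^ 2 - C a * X + 1) * F).natDegree = 2 * (k + 1) := by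
    rw [hq.natDegree_mul hm, hqd, hd]
    ring
  have htop : F.coeff (2 * k) = 1 := by
    have := hm.coeff_natDegree
    rwa [hd] at this
  have hbig : ∀ i, 2 * k < i → F.coeff i = 0 := fun i hi =>
    coeff_eq_zero_of_natDegree_lt (by omega)
  refine ⟨hq.mul hm, hdeg, by rw [QQB_c0, h0], ?_, ?_⟩
  · -- symmetry: it is enough to treat 1 ≤ i ≤ k + 1 ... we treat all i
    have key : ∀ i : ℕ, i + 2 ≤ 2 * k → ((X ^ 2 - C a * X + 1) * F).coeff (2 * (k + 1) - (i + 2)) =
        ((X ^ 2 - C a * X + 1) * F).coeff (i + 2) := by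
      intro i hi
      have e : 2 * (k + 1) - (i + 2) = (2 * k - (i + 2)) + 2 := by omega
      rw [e, QQB_c2, QQB_c2]
      have e1 := hs i (by omega)
      have e2 := hs (i + 1) (by omega)
      have e3 := hs (i + 2) (by omega)
      rw [show 2 * k - (i + 2) + 1 = 2 * k - (i + 1) by omega,
        show 2 * k - (i + 2) + 2 = 2 * k - i by omega, e1, e2, e3]
      ring
    have h1 : ((X ^ 2 - C a * X + 1) * F).coeff (2 * k + 1) =
        ((X ^ 2 - C a * X + 1) * F).coeff 1 := by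
      rw [QQB_c1]
      rcases Nat.eq_zero_or_pos k with hk | hk
      · subst hk
        exact QQB_c1 a F
      · have e := QQB_c2 a F (2 * k - 1)
        rw [show 2 * k - 1 + 2 = 2 * k + 1 by omega, show 2 * k - 1 + 1 = 2 * k by omega] at e
        rw [e, hbig (2 * k + 1) (by omega), htop, h0, hs 1 (by omega)]
        ring
    have h2 : ((X ^ 2 - C a * X + 1) * F).coeff (2 * k + 2) =
        ((X ^ 2 - C a * X + 1) * F).coeff 0 := by
      rw [QQB_c2, QQB_c0, hbig (2 * k + 1) (by omega), hbig (2 * k + 2) (by omega), htop, h0]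
      ring
    intro i hi
    rcases Nat.lt_or_ge i 2 with hi2 | hi2
    · interval_cases i
      · exact h2
      · exact h1
    · obtain ⟨j, rfl⟩ : ∃ j, i = j + 2 := ⟨i - 2, by omega⟩
      rcases Nat.lt_or_ge (2 * k) (j + 2) with h3 | h3
      · rcases Nat.lt_or_ge (j + 2) (2 * k + 2) with h4 | h4
        · rw [show 2 * (k + 1) - (j + 2) = 1 by omega, show j + 2 = 2 * k + 1 by omega]
          exact h1.symm
        · rw [show 2 * (k + 1) - (j + 2) = 0 by omega, show j + 2 = 2 * k + 2 by omega]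
          exact h2.symm
      · exact key j h3
  · intro i
    have h4 : (4 : ℝ) ^ (k + 1) = 4 ^ k + 2 * 4 ^ k + 4 ^ k := by ring
    have hp : (0 : ℝ) ≤ 4 ^ k := by positivity
    have hab : ∀ j, |a * F.coeff j| ≤ 2 * 4 ^ k := fun j => by
      rw [abs_mul]
      exact mul_le_mul ha (hb j) (abs_nonneg _) (by norm_num)
    rw [h4]
    rcases Nat.lt_or_ge i 2 with hi2 | hi2
    · interval_cases i
      · rw [QQB_c0]
        linarith [hb 0]
      · rw [QQB_c1]
        refine (abs_sub _ _).trans ?_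
        linarith [hb 1, hab 0]
    · obtain ⟨j, rfl⟩ : ∃ j, i = j + 2 := ⟨i - 2, by omega⟩
      rw [QQB_c2]
      refine (abs_add_le _ _).trans ?_
      have := abs_sub (F.coeff j) (a * F.coeff (j + 1))
      linarith [hb j, hab (j + 1), hb (j + 2)]

theorem QQB : QQB_stmt := by
  intro k
  induction k with
  | zero =>
    intro w
    have h : QQ w = 1 := by simp [QQ]
    rw [h]
    refine ⟨monic_one, by simp, by simp, ?_, ?_⟩
    · intro i hi
      rw [show i = 0 by omega]
    · intro i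
      rw [coeff_one]
      split_ifs <;> simp
  | succ k ih =>
    intro w
    have h : QQ w = (X ^ 2 - C (2 * (w 0 : ℂ).re) * X + 1) * QQ (fun j : Fin k => w j.succ) := by
      unfold QQ
      rw [Fin.prod_univ_succ]
    rw [h]
    refine QQB_step k _ ?_ _ (ih _)
    have h1 : |(w 0 : ℂ).re| ≤ 1 := by
      have := Complex.abs_re_le_norm (w 0 : ℂ)
      rwa [Circle.norm_coe] at this
    rw [abs_mul]
    norm_num
    exact h1

end Pool.Agent.PSA
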