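import Pool.Agent.helper75.PSA.Spec

set_option autoImplicit false

open Polynomial Finset

noncomputable section

namespace Pool.Agent.PSA

/-- the complex roots of `P` -/
theorem SLM_roots (hQQC : QQC_stmt) {k : ℕ} {P : ℤ[X]} {Λ : ℝ} {w : Fin k → Circle} (hF : Fac P Λ w)
    (z : ℂ) : aeval z P = 0 ↔ z = (Λ : ℂ) ∨ z = ((Λ⁻¹ : ℝ) : ℂ) ∨ ∃ j, z = (w j : ℂ) ∨ z = ((w j : ℂ))⁻¹ := by
  have h1 : aeval z P = ((P.map (Int.castRingHom ℝ)).map (algebraMap ℝ ℂ)).eval z := by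
    rw [Polynomial.map_map, eval_map, aeval_def]
    congr 1
  unfold Fac at hF
  rw [h1, hF, Polynomial.map_mul, hQQC, Polynomial.map_mul, Polynomial.map_sub,
    Polynomial.map_sub, Polynomial.map_X, Polynomial.map_C, Polynomial.map_C, eval_mul, eval_mul,
    eval_prod, mul_eq_zero, mul_eq_zero, Finset.prod_eq_zero_iff]
  simp only [eval_sub, eval_X, eval_C, eval_mul, mul_eq_zero, sub_eq_zero, mem_univ, true_and]
  rw [or_assoc]
  rfl

theorem SLM (hQQC : QQC_stmt) (hQQB : QQB_stmt) : SLM_stmt := by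
  intro k P Λ w hk hΛ hmon hirr hF
  have hΛ0 : 0 < Λ := by linarith
  have hroot : aeval Λ P = 0 := by
    have h1 : aeval (Λ : ℂ) P = 0 := (SLM_roots hQQC hF _).2 (Or.inl rfl)
    have h2 : ((aeval Λ P : ℝ) : ℂ) = 0 := by
      rw [← h1]
      exact (Polynomial.aeval_algebraMap_apply ℂ Λ P).symm
    exact_mod_cast h2
  have hint : IsIntegral ℤ Λ := ⟨P, hmon, by rwa [← aeval_def]⟩
  have hmin : minpoly ℤ Λ = P := by
    obtain ⟨c, hc⟩ : minpoly ℤ Λ ∣ P := minpoly.isIntegrallyClosed_dvd hint hroot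
    rcases hirr.isUnit_or_isUnit hc with h | h
    · exact absurd h (minpoly.not_isUnit ℤ Λ)
    · exact eq_of_monic_of_associated (minpoly.monic hint) hmon ⟨h.unit, hc.symm⟩
  refine ⟨⟨hint, hΛ, ?_, ?_⟩, hmin⟩
  · intro z hz hne
    rw [hmin, SLM_roots hQQC hF] at hz
    rcases hz with h | h | ⟨j, h | h⟩
    · exact absurd h hne
    · rw [h, Complex.norm_real, Real.norm_eq_abs, abs_of_pos (inv_pos.2 hΛ0)]
      exact (inv_lt_one_of_one_lt₀ hΛ).le
    · rw [h, Circle.norm_coe]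
    · rw [h, norm_inv, Circle.norm_coe, inv_one]
  · refine ⟨(w ⟨0, hk⟩ : ℂ), ?_, Circle.norm_coe _⟩
    rw [hmin, SLM_roots hQQC hF]
    exact Or.inr (Or.inr ⟨⟨0, hk⟩, Or.inl rfl⟩)

end Pool.Agent.PSA
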