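import Pool.Agent.helper75.PSA.Spec
import Pool.Agent.helper75.PSA.QQB
import Pool.Agent.helper75.PSA.QQC
import Pool.Agent.helper75.PSA.CTN
import Pool.Agent.helper75.PSA.FAC
import Pool.Agent.helper75.PSA.CRI
import Pool.Agent.helper75.PSA.POW
import Pool.Agent.helper75.PSA.PWN
import Pool.Agent.helper75.PSA.SLM
import Pool.Agent.helper75.PSA.PWS
import Pool.Agent.helper75.PSA.PR2
import Pool.Agent.helper42.PSA.NE
import Pool.Agent.helper53.PSA.REC
import Pool.Agent.helper48.PSA.IND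
import Pool.Agent.helper58.PSA.KRO
import Pool.Agent.helper59.PSA.UKR
import Pool.Agent.helper24.PSA.PR1
import Pool.Agent.helper58.PSA.TRG
import Pool.Agent.helper24.PSA.PVC
import Pool.Agent.helper59.PSA.LOC
import Pool.Agent.helper59.PSA.COE
import Pool.Agent.helper59.PSA.IRR
import Pool.Agent.helper59.PSA.LWB
import Pool.Agent.helper76.PSA.UPB

/-!
Assembly of the rows of project psa (MP_2b41e9_nt).
-/

set_option autoImplicit false

open Polynomial Finset

noncomputable section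

namespace Pool.Agent.PSA

theorem ALL_REC : REC_stmt := REC FAC
theorem ALL_PWN : PWN_stmt := PWN POW QQC
theorem ALL_SLM : SLM_stmt := SLM QQC QQB
theorem ALL_CRI : CRI_stmt := CRI QQB

theorem ALL_PR1 : PR1_stmt :=
  PR1 ALL_REC (IND QQC) ALL_PWN (UKR KRO) CTN (NE FAC) ALL_CRI

theorem ALL_PR2 : PR2_stmt :=
  PR2 ALL_REC (LWB (LOC (TRG QQC) PVC) (COE QQB PVC) (IRR PVC) ALL_SLM ALL_CRI PVC) (UPB ALL_REC QQB)

theorem ALL_PWS (β : ℝ) (hβ : IsSalem β) (N : ℕ) (hN : 1 ≤ N) :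
    IsSalem (β ^ N) ∧ (minpoly ℤ (β ^ N)).natDegree = (minpoly ℤ β).natDegree :=
  PWS ALL_REC ALL_PWN QQC QQB ALL_SLM β hβ N hN

/-- the degree of a Salem number is at least 4 -/
theorem ALL_deg (β : ℝ) (hβ : IsSalem β) : 4 ≤ (minpoly ℤ β).natDegree := by
  obtain ⟨k, hk, h, -⟩ := ALL_REC β hβ
  omega

theorem ALL_main : MAIN_stmt := MAIN_of ALL_PR1 ALL_PR2

end Pool.Agent.PSA
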