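import Mathlib

/-!
# Project psa (MP_2b41e9_nt): a positive proportion of the Salem numbers are Parry numbers

Architect helper75. THEOREM. For every `d` there is `δ > 0` such that
(1) for every Salem number `β` of degree `d` there is `X₀` such that every block of `X ≥ X₀` consecutive
integers contains at least `δ X` integers `N` for which `β^N` is a Parry number;
(2) for all large `X` at least `δ * #{Salem numbers of degree d, ≤ X}` Salem numbers of degree `d`, `≤ X`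
are Parry numbers.
All these Parry numbers have `d_β(1) = t_1 (t_2 ... t_d)^∞`.

Idea. `Λ` a Salem number, minimal polynomial `(x - Λ)(x - 1/Λ) Q(x)`, `Q` monic reciprocal with all roots on
the unit circle. If the middle coefficients of `Q` are in `(1/Λ, 1)` then `r_i = q_i - q_(i-1)/Λ` are the
greedy remainders of 1 (row CRI). (1): the angles of the conjugates of `β^N` are dense in the torus (IND,
KRO); (2): counting integer polynomials.

RULES. File `Pool/Agent/<seat>/PSA/XX.lean`, `import Pool.Agent.helper75.PSA.Spec`, `namespace Pool.Agent.PSA`,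
`open Polynomial Finset`, `noncomputable section`; auxiliary lemmas prefixed `XX_`; other rows only as
hypotheses (theorem lines in the lock notes). No double quotes, no `convert`, no `congr!`, no `native_decide`.
-/

set_option autoImplicit false

open Polynomial Finset

noncomputable section

namespace Pool.Agent.PSA

/-! ## Definitions -/

/-- Salem number (exactly as in the frozen statement S16397). -/
def IsSalem (β : ℝ) : Prop :=
  IsIntegral ℤ β ∧ 1 < β ∧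
    (∀ z : ℂ, Polynomial.aeval z (minpoly ℤ β) = 0 → z ≠ (β : ℂ) → ‖z‖ ≤ 1) ∧
    ∃ z : ℂ, Polynomial.aeval z (minpoly ℤ β) = 0 ∧ ‖z‖ = 1

/-- Remainders of the greedy expansion of 1 to the base β. -/
def rmd (β : ℝ) : ℕ → ℝ
  | 0 => 1
  | n + 1 => β * rmd β n - (⌊β * rmd β n⌋ : ℝ)

/-- `r (n + d - 1) = r n` for `n ≥ 1`: the greedy expansion of 1 is `t_1 (t_2 ... t_d)^∞`. -/
def Short (d : ℕ) (β : ℝ) : Prop := ∀ n : ℕ, 1 ≤ n → rmd β (n + (d - 1)) = rmd β n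

/-- The monic real polynomial with the roots `w j` and their conjugates. -/
def QQ {k : ℕ} (w : Fin k → Circle) : ℝ[X] := ∏ j, (X ^ 2 - C (2 * (w j : ℂ).re) * X + 1)

/-- `P = (X - Λ)(X - Λ⁻¹) QQ w`. -/
def Fac (P : ℤ[X]) (Λ : ℝ) {k : ℕ} (w : Fin k → Circle) : Prop :=
  P.map (Int.castRingHom ℝ) = (X - C Λ) * (X - C Λ⁻¹) * QQ w

/-- The middle coefficients of `QQ w` are in `(η, 1)`. -/
def Mid {k : ℕ} (η : ℝ) (w : Fin k → Circle) : Prop :=
  ∀ i : ℕ, 0 < i → i < 2 * k → η < (QQ w).coeff i ∧ (QQ w).coeff i < 1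

/-- Multiplicative independence. -/
def Indep {k : ℕ} (w : Fin k → Circle) : Prop := ∀ n : Fin k → ℤ, ∏ j, w j ^ n j = 1 → n = 0

/-- The Salem numbers of degree `d` up to `X`. -/
def SS (d : ℕ) (X : ℝ) : Set ℝ := {β | IsSalem β ∧ (minpoly ℤ β).natDegree = d ∧ β ≤ X}

/-- The polynomials of part (2); only `v 0, ..., v k` matter. -/
def PV (k : ℕ) (v : ℕ → ℤ) : ℤ[X] :=
  (X - 1) ^ (2 * k + 2) + 2 * X ^ (k + 1) -
    4 * ∑ i ∈ Finset.Icc 1 (2 * k + 1), C (v (min (i - 1) (2 * k + 1 - i))) * X ^ i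

/-- The box of part (2). -/
def Bx (k n : ℕ) (v : ℕ → ℤ) : Prop :=
  (8 * k * n : ℤ) ≤ v 0 ∧ v 0 ≤ (12 * k * n : ℤ) ∧ ∀ j : ℕ, 1 ≤ j → j ≤ k → (3 * n : ℤ) ≤ v j ∧ v j ≤ (4 * n : ℤ)

/-! ## Block A: the polynomials QQ -/

/-- **QQB** (short-medium, 70 lines). Induction on `k` (`Fin.prod_univ_succ`): a product of a monic polynomial with
symmetric coefficients of degree `2k` and of `x² - a x + 1`, `|a| ≤ 2` (`|re w| ≤ ‖w‖ = 1`) has the same properties: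
coefficient `i` of the product is `c_(i-2) - a c_(i-1) + c_i`, of modulus `≤ 4 * 4^k`. Symmetry: or with
`Polynomial.reverse` (`reverse_mul_of_domain`, the factors are equal to their reverse, `coeff_reverse`, `revAt`). -/
def QQB_stmt : Prop := ∀ (k : ℕ) (w : Fin k → Circle), (QQ w).Monic ∧ (QQ w).natDegree = 2 * k ∧
  (QQ w).coeff 0 = 1 ∧ (∀ i : ℕ, i ≤ 2 * k → (QQ w).coeff (2 * k - i) = (QQ w).coeff i) ∧
  ∀ i : ℕ, |(QQ w).coeff i| ≤ 4 ^ k

/-- **QQC** (short, 30 lines). The complex roots. `(x - w)(x - w⁻¹) = x² - 2 re w x + 1` as `w⁻¹ = conj w`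
(`Circle.coe_inv_eq_conj`), `w + conj w = 2 re w`. -/
def QQC_stmt : Prop := ∀ (k : ℕ) (w : Fin k → Circle), (QQ w).map (algebraMap ℝ ℂ) =
  ∏ j, ((X - C (w j : ℂ)) * (X - C ((w j : ℂ)⁻¹)))

/-- **CTN** (short, 30 lines). Continuity of the coefficients. Induction on `k` with `Fin.prod_univ_succ`
(`Polynomial.coeff_mul` is a finite sum of products; or the coefficient of a finite product). -/
def CTN_stmt : Prop := ∀ (k i : ℕ), Continuous (fun w : Fin k → Circle => (QQ w).coeff i)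

/-- **FAC** (short-medium, 80 lines). A real polynomial with unimodular non-real roots.
Proof. Induction on `k`; `k = 0`: `F = 1`. Otherwise `F` has a complex root `z` (`IsAlgClosed.exists_aeval_eq_zero`,
`ℂ`), `‖z‖ = 1`, `z.im ≠ 0`; by `Polynomial.mul_star_dvd_of_aeval_eq_zero_im_ne_zero` or
`Polynomial.quadratic_dvd_of_aeval_eq_zero_im_ne_zero` (Mathlib: `X ^ 2 - C (2 * z.re) * X + C (‖z‖ ^ 2) ∣ F`)
`F = (X² - 2 re z X + 1) G`, `G` monic of degree `2(k-1)`, roots of `G` are roots of `F`. `w = Fin.cons z w'`. -/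
def FAC_stmt : Prop := ∀ (k : ℕ) (F : ℝ[X]), F.Monic → F.natDegree = 2 * k →
  (∀ z : ℂ, aeval z F = 0 → ‖z‖ = 1 ∧ z.im ≠ 0) → ∃ w : Fin k → Circle, F = QQ w

/-- **NE** (medium, 90 lines; from FAC). A point with all middle coefficients `1/2`.
Proof. `F = X^(2k) + C (1/2) * ∑_(i=1)^(2k-1) X^i + 1` (monic, degree `2k`), `(X - 1) F = X^(2k+1) - (1/2) X^(2k) + (1/2) X - 1`
(geometric sum). If `F z = 0` then `z^(2k) (z - 1/2) = 1 - z/2`. `|z - 1/2|² - |1 - z/2|² = (3/4)(|z|² - 1)`. If `|z| > 1` the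
left side has larger modulus, if `|z| < 1` smaller: so `|z| = 1`. `F(1) > 0`, `F(-1) = 3/2` (`∑_(i=1)^(2k-1) (-1)^i = -1`), so
`z ≠ 1, -1` and `z.im ≠ 0`. FAC. The coefficients of `F` with `0 < i < 2k` are `1/2`. -/
def NE_stmt : Prop := ∀ k : ℕ, 1 ≤ k → ∃ w : Fin k → Circle, ∀ i : ℕ, 0 < i → i < 2 * k → (QQ w).coeff i = 1 / 2

/-! ## Block B: the criterion -/

/-- **CRI** (medium, 120 lines; from QQB). The criterion.
Proof. `m = 2k ≥ 2`, `Q = QQ w`, `q i = Q.coeff (m - i)` for `i ≤ m` (`= Q.coeff i`), `q 0 = q m = 1`, `Λ⁻¹ < q i ≤ 1` for all `i ≤ m`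
(`Λ⁻¹ < 1`). Put `r 0 = 1`, `r i = q i - Λ⁻¹ q (i-1)` for `1 ≤ i ≤ m`, `r (m+1) = -Λ⁻¹`: these are the coefficients of
`(X - Λ⁻¹) Q = ∑ r_i X^(m+1-i)`. `P = (X - Λ) (X - Λ⁻¹) Q`: the coefficient of `X^(m+2-i)` of `P` is `r i - Λ r (i-1)`, an integer, for
`1 ≤ i ≤ m+1`: so `Λ r (i-1) = r i + integer`. For `1 ≤ i ≤ m`: `0 < r i < 1`: `q i > Λ⁻¹ ≥ Λ⁻¹ q (i-1)`, and `r i < q i ≤ 1`. So by induction
`rmd Λ i = r i` for `i ≤ m` (`Int.floor_eq_iff` or `Int.fract`). `Λ r m = -Λ⁻¹ + integer`, so `rmd Λ (m+1) = 1 - Λ⁻¹`,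
`Λ (1 - Λ⁻¹) = Λ - 1`, so `rmd Λ (m+2) = fract Λ = rmd Λ 1`. With `d = m + 2`: `rmd Λ (1 + (d - 1)) = rmd Λ 1`, and then by induction
`rmd Λ (n + (d-1)) = rmd Λ n` for all `n ≥ 1`. -/
def CRI_stmt : Prop := ∀ (k : ℕ) (P : ℤ[X]) (Λ : ℝ) (w : Fin k → Circle), 1 ≤ k → 1 < Λ → Fac P Λ w →
  Mid Λ⁻¹ w → Short (2 * k + 2) Λ

/-! ## Block C: powers of a Salem number -/

/-- **REC** (medium-long, 150 lines; from FAC). The conjugates of a Salem number.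
Proof. `P = minpoly ℤ β`, `P.map ℚ = minpoly ℚ β` (`minpoly.isIntegrallyClosed_eq_field_fractions'`), irreducible. Let `z₀` be a root with `‖z₀‖ = 1`.
`z₀⁻¹ = conj z₀` is a root (real coefficients). For every root `z` of `P` also `z⁻¹` is a root: `minpoly ℚ z₀ = minpoly ℚ β`, and `z₀` is a root of the
reverse of `P` (`z₀⁻¹` is a root of `P`, `P.coeff 0 ≠ 0`), so `minpoly ℚ β` divides the reverse of `P.map ℚ` (compare `inv_root` in
`Pool/Agent/Results/MP_2b41e9_nt/Complexity.lean`). So `β⁻¹` is a root; a root `z ≠ β, β⁻¹` has `‖z‖ ≤ 1`, `z⁻¹ ≠ β` is a root, so `‖z⁻¹‖ ≤ 1` and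
`‖z‖ = 1`. Real roots of modulus 1 are `1, -1`: then `P = X - 1` or `X + 1` (`P` is the minimal polynomial of each of its roots), impossible as `β > 1`. So all roots
other than `β, β⁻¹` are unimodular and not real. `P` is separable (characteristic 0), `β ≠ β⁻¹`. Over `ℝ`: `(X - β)(X - β⁻¹)` divides `P`, quotient `F` monic; its
complex roots are roots of `P` different from `β, β⁻¹` (simple roots), so unimodular, not real. `F` has no real root, so even degree `2k` (a real polynomial of odd degree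
has a real root; or pair the roots by conjugation; `Polynomial.Splits`/`IsAlgClosed.card_roots...`); `z₀` is a root of `F` so `k ≥ 1`. FAC. -/
def REC_stmt : Prop := ∀ β : ℝ, IsSalem β → ∃ k : ℕ, 1 ≤ k ∧ (minpoly ℤ β).natDegree = 2 * k + 2 ∧
  ∃ w : Fin k → Circle, Fac (minpoly ℤ β) β w

/-- **IND** (medium-long, 120 lines; from QQC). Independence. Proof. Let `∏ w_j^(n_j) = 1` and fix `j₀`. By Fac and QQC the complex roots of `P = minpoly ℤ β` are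
`β, β⁻¹, w_j, w_j⁻¹`, and `P` is separable over `ℂ`, so these `2k + 2` numbers are distinct (the roots multiset has no duplicates). Let `A = algebraicClosure ℚ ℂ` (or any
normal extension inside `ℂ` containing the roots): there is `σ : A ≃ₐ[ℚ] A` with `σ (w_(j₀)) = β` (`isConjRoot_iff_exists_algEquiv`, both have the minimal polynomial `minpoly ℚ β`).
`σ (w_(j₀)⁻¹) = β⁻¹`; for `j ≠ j₀` `σ (w_j)` is a root of `P` different from `σ (w_(j₀)) = β` and from `σ (w_(j₀)⁻¹) = β⁻¹`, so `‖σ (w_j)‖ = 1`. Apply `σ` to the relation and take absolute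
values: `β^(n_(j₀)) = 1`, so `n_(j₀) = 0`. -/
def IND_stmt : Prop := ∀ (β : ℝ) (k : ℕ) (w : Fin k → Circle), IsSalem β → Fac (minpoly ℤ β) β w → Indep w

/-- **POW** (medium, 80 lines). Powers of the roots. Proof. `s = (α_1, ..., α_m)`. The coefficients of `∏ (X - α_i^N)` are (up to sign) the elementary symmetric polynomials of
the `α_i^N`, symmetric polynomials with integer coefficients in the `α_i`, so integer polynomials in the elementary symmetric polynomials of the `α_i`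
(`MvPolynomial.esymmAlgHom_fin_surjective` / `MvPolynomial.esymmAlgEquiv`, `MvPolynomial.IsSymmetric`), which are integers. Alternatively: `P` is the characteristic polynomial of its companion matrix
`M` over `ℤ` and `P' = charpoly (M^N)` (upper triangular form over `ℂ`; `Matrix.charpoly`-lemmas), or: resultant. -/
def POW_stmt : Prop := ∀ (P : ℤ[X]) (s : Multiset ℂ), P.map (Int.castRingHom ℂ) = (s.map (fun a => X - C a)).prod →
  ∀ N : ℕ, ∃ P' : ℤ[X], P'.map (Int.castRingHom ℂ) = (s.map (fun a => X - C (a ^ N))).prod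

/-- **PWN** (short-medium, 60 lines; from POW and QQC). Proof. Over `ℂ`, `P = (X - β)(X - β⁻¹) ∏ (X - w_j)(X - w_j⁻¹)` (Fac mapped to `ℂ`, QQC); POW with the multiset
`{β, β⁻¹} + ∑_j {w_j, w_j⁻¹}`; `(β⁻¹)^N = (β^N)⁻¹`, `(w_j⁻¹)^N = (w_j^N)⁻¹`; QQC for `w^N`; the map `ℝ[X] → ℂ[X]` is injective. -/
def PWN_stmt : Prop := ∀ (k : ℕ) (P : ℤ[X]) (β : ℝ) (w : Fin k → Circle), Fac P β w → ∀ N : ℕ,
  ∃ P' : ℤ[X], Fac P' (β ^ N) (fun j => w j ^ N)

/-- **KRO** (medium-long, 150 lines). Kronecker's theorem. Proof (Weyl). Let `T = UnitAddTorus (Fin k)`, `w j = toCircle (θ j)` (`AddCircle.homeomorphCircle'` or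
`AddCircle.homeomorphCircle`), `U' ⊆ T` the preimage of `U`, open and nonempty. Suppose `N • θ ∉ U'` for all `N`. Let `f : C(T, ℝ)`, `f ≥ 0`, not zero, zero outside `U'` (for instance
`x ↦ infDist x U'ᶜ`, or Urysohn). Let `ε > 0`; by `UnitAddTorus.span_mFourier_closure_eq_top` there is a finite combination `g = ∑ c_n mFourier n` with `|f - g| ≤ ε`. For `n ≠ 0`: `mFourier n (N • θ) = ζ^N`, `ζ = ∏ w_j^(n_j) ≠ 1`
(independence), and `|∑_(N<X) ζ^N| ≤ 2/|1 - ζ|`. So the averages over `N < X` of `g (N • θ)` tend to `c_0 = ∫ g`; they are `≤ ε` in modulus as `f (N • θ) = 0`. So `∫ f ≤ 2 ε` for all `ε`, `∫ f = 0`, contradiction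
(`f` continuous, `≥ 0`, not zero, the volume is positive on open sets). -/
def KRO_stmt : Prop := ∀ (k : ℕ) (w : Fin k → Circle), Indep w → ∀ U : Set (Fin k → Circle), IsOpen U → U.Nonempty →
  ∃ N : ℕ, (fun j => w j ^ N) ∈ U

open Classical in
/-- **UKR** (medium, 120 lines; from KRO). Uniform lower bound for the number of visits. Proof. `T = Fin k → Circle`, a compact topological group. `u ∈ U`; by continuity of `(x, y) ↦ u * x * y` at `(1, 1)` there is an open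
`V` with `1 ∈ V` and `u * x * y ∈ U` for `x, y ∈ V`. Compactness: there are `g_1, ..., g_M ∈ T` (`M ≥ 1`) such that for every `x ∈ T` some `i` has `u⁻¹ * g_i⁻¹ * x ∈ V`. `δ = 1/(2M)`. Given `w`: by KRO there are `n_i` with
`g_i * (w^(n_i))⁻¹ ∈ V` (this is an open condition on `w^(n_i)`, satisfied by `g_i`). Let `n = max n_i`. For `N ∈ [s + n, s + X)` choose `i` with `u⁻¹ g_i⁻¹ w^N ∈ V`: `w^(N - n_i) = u * (g_i (w^(n_i))⁻¹) * (u⁻¹ g_i⁻¹ w^N) ∈ U` (commutative), `N - n_i ∈ [s, s + X)`.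
The map `N ↦ N - n_i` has fibres with at most `M` elements, so the number of visits is at least `(X - n)/M ≥ δ X` for `X ≥ 2n`. -/
def UKR_stmt : Prop := ∀ (k : ℕ) (U : Set (Fin k → Circle)), IsOpen U → U.Nonempty → ∃ δ : ℝ, 0 < δ ∧
  ∀ w : Fin k → Circle, Indep w → ∃ X₀ : ℕ, ∀ X : ℕ, X₀ ≤ X → ∀ s : ℕ,
    δ * X ≤ (((Finset.Ico s (s + X)).filter (fun N => (fun j => w j ^ N) ∈ U)).card : ℝ)

open Classical in
/-- **PR1** (medium, 110 lines; from REC IND PWN UKR CTN NE CRI). Part (1). Proof. If `d ≠ 2k+2` for all `k ≥ 1` there is nothing to prove (REC), `δ = 1`. Let `d = 2k+2`. `U = {w | Mid (1/4) w}` is open (CTN, finitely many `i`), contains the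
point of NE. `δ₀` from UKR, `δ = δ₀/2`. Given `β`: `w` from REC (the same `k`), independent (IND). `N₁ ≥ 1` with `β^N > 4` for `N ≥ N₁`. If `N ≥ N₁` and `w^N ∈ U` then PWN: `Fac P' (β^N) (w^N)`, `(β^N)⁻¹ < 1/4`, so `Mid (β^N)⁻¹ (w^N)`, CRI: `Short d (β^N)`. Number:
`≥ δ₀ X - N₁ ≥ δ X` for `X ≥ 2 N₁/δ₀` and `X ≥ X₀`. -/
def PR1_stmt : Prop := ∀ d : ℕ, ∃ δ : ℝ, 0 < δ ∧ ∀ β : ℝ, IsSalem β → (minpoly ℤ β).natDegree = d →
  ∃ X₀ : ℕ, ∀ X : ℕ, X₀ ≤ X → ∀ s : ℕ,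
    δ * X ≤ (((Finset.Ico s (s + X)).filter (fun N => Short d (β ^ N))).card : ℝ)

/-! ## Block D: all Salem numbers of degree `d` -/

/-- **TRG** (medium-long, 170 lines). Root location by sign changes. Let `n = k + 1`, `f(φ) = ∑_(i ≤ 2n) P_i cos((i - n) φ)`.
Proof. `P(e^(iφ)) = e^(inφ) (∑ P_i e^(i(i-n)φ))` and the imaginary part of the sum vanishes by the symmetry of the coefficients, so `P(e^(iφ)) = e^(inφ) f(φ)`. By hypothesis `f` has opposite signs at `πj/k` and `π(j+1)/k`, `0 ≤ j < k`: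
`θ_j ∈ (πj/k, π(j+1)/k)` with `f(θ_j) = 0` (intermediate value theorem), `0 < θ_0 < ... < θ_(k-1) < π`. `f(0) = P(1) < 0` (`j = 0`), `P(x) → ∞`, so there is `Λ > 1` with `P(Λ) = 0`; by symmetry `P(x) = x^(2n) P(1/x)`, so `P(Λ⁻¹) = 0`. The `2k+2` complex numbers `Λ, Λ⁻¹, e^(iθ_j),
e^(-iθ_j)` are distinct roots of the monic `P` of degree `2k+2`, so `P` (over `ℂ`) is the product of the linear factors; `w j = e^(iθ_j)` (`Circle.exp`), QQC (`(QQ w).map = ∏ (X - w_j)(X - w_j⁻¹)`), injectivity of `ℝ[X] → ℂ[X]`. -/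
def TRG_stmt : Prop := ∀ (k : ℕ) (P : ℝ[X]), 1 ≤ k → P.Monic → P.natDegree = 2 * k + 2 →
  (∀ i : ℕ, i ≤ 2 * k + 2 → P.coeff (2 * k + 2 - i) = P.coeff i) →
  (∀ j : ℕ, j ≤ k → (-1 : ℝ) ^ j * ∑ i ∈ range (2 * k + 3),
    P.coeff i * Real.cos (((i : ℝ) - (k + 1)) * (Real.pi * j / k)) < 0) →
  ∃ (Λ : ℝ) (w : Fin k → Circle), 1 < Λ ∧ P = (X - C Λ) * (X - C Λ⁻¹) * QQ w

/-- **PVC** (short-medium, 80 lines). The coefficients of `PV`. With `R i` = the coefficient `i` of `(X-1)^(2k+2) + 2 X^(k+1)`: symmetric, `|R i| ≤ 4^(k+1) + 2`, `∑ |R i| ≤ 4^(k+1) + 2`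
(`coeff_X_sub_one_pow`-type lemma: `Polynomial.coeff_X_sub_C_pow`, binomial coefficients, `Nat.sum_range_choose`), degree `2k+2` monic. -/
def PVC_stmt : Prop := ∀ k : ℕ, ∃ R : ℕ → ℤ, ∑ i ∈ range (2 * k + 3), |R i| ≤ 4 ^ (k + 1) + 2 ∧
  (∀ i : ℕ, i ≤ 2 * k + 2 → R (2 * k + 2 - i) = R i) ∧ R 0 = 1 ∧
  ∀ v : ℕ → ℤ, (PV k v).Monic ∧ (PV k v).natDegree = 2 * k + 2 ∧
    (∀ i : ℕ, 1 ≤ i → i ≤ 2 * k + 1 → (PV k v).coeff i = R i - 4 * v (min (i - 1) (2 * k + 1 - i))) ∧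
    (PV k v).coeff 0 = 1

/-- **LOC** (medium, 110 lines; from TRG and PVC). Proof. `P = PV k v` mapped to `ℝ`, monic, degree `2k+2`, symmetric (`min (i-1) (2k+1-i)` is symmetric under `i ↦ 2k+2-i`; `coeff 0 = coeff (2k+2) = 1`). Sign condition at `φ = πj/k`: the sum is the part of `R` (also for `i = 0`, `2k+2`, where the
coefficient is `1 = R i`), of modulus `≤ 4^(k+1) + 2`, minus `4 (2 v_0 cos(k φ) + ∑_(i=2)^(2k) v_(..) cos((i-k-1) φ))`; `cos(kφ) = cos(πj) = (-1)^j`, and the last sum has modulus `≤ (2k-1) 4n ≤ v_0 - 4n`. So `(-1)^j` times the sum is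
`≤ 4^(k+1) + 2 - 4 (2 v_0 - v_0 + 4n) < 0` for `n ≥ 4^(k+1) + 2`. TRG. -/
def LOC_stmt : Prop := ∀ k : ℕ, 1 ≤ k → ∃ n₀ : ℕ, ∀ n : ℕ, n₀ ≤ n → ∀ v : ℕ → ℤ, Bx k n v →
  ∃ (Λ : ℝ) (w : Fin k → Circle), 1 < Λ ∧ Fac (PV k v) Λ w

/-- **COE** (medium, 110 lines; from QQB and PVC). Proof. `L = Λ + Λ⁻¹`, `q i = (QQ w).coeff i`, `|q i| ≤ 4^k`, `(X - Λ)(X - Λ⁻¹) = X² - L X + 1`. Coefficient of `X^(i+1)`, `0 ≤ i ≤ 2k`: `q_(i-1) - L q_i + q_(i+1) = R_(i+1) - 4 v_(min i (2k-i))` (`q_(-1) = 0`). With `M = 8 * 4^k`: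
`i = 0`: `|L - 4 v_0| ≤ 4^(k+1) + 2 + 4^k ≤ M`; `1 ≤ i ≤ 2k-1`: `|L q_i - 4 v_j| ≤ 4^(k+1) + 2 + 2 * 4^k ≤ M`, `1 ≤ j ≤ k`. Let `n ≥ n₀ = M`: `31 k n ≤ L ≤ 49 k n`, `11 n ≤ L q_i ≤ 17 n`. So `q_i < 1`; `Λ ≤ L ≤ 50 k n`; `L ≤ 2 Λ`, so `Λ⁻¹ ≤ 2/L < 11 n/L ≤ q_i`. -/
def COE_stmt : Prop := ∀ k : ℕ, 1 ≤ k → ∃ n₀ : ℕ, ∀ n : ℕ, n₀ ≤ n → ∀ v : ℕ → ℤ, Bx k n v →
  ∀ (Λ : ℝ) (w : Fin k → Circle), 1 < Λ → Fac (PV k v) Λ w → Λ ≤ 50 * k * n ∧ Mid Λ⁻¹ w

/-- **IRR** (medium, 90 lines; from PVC). Eisenstein. Proof. `Q = (PV k v).comp (X + 1) = X^(2k+2) + 2 (X+1)^(k+1) - 4 (...)` is monic of degree `2k+2`, all lower coefficients are even, `Q(0) = PV(1) = 2 - 4 (...)` is not divisible by `4`: `Polynomial.IsEisensteinAt` for the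
ideal `(2)`, `IsEisensteinAt.irreducible`. `P` is irreducible since `P ↦ P.comp (X + 1)` is a ring automorphism (`Polynomial.algEquivAevalXAddC`, or: a factorization `P = A B` gives `Q = A(X+1) B(X+1)`). -/
def IRR_stmt : Prop := ∀ (k : ℕ) (v : ℕ → ℤ), Irreducible (PV k v)

/-- **SLM** (short-medium, 70 lines; from QQC). Recognizing Salem numbers. Proof. `P(Λ) = 0`, so `minpoly ℤ Λ ∣ P` (`minpoly.isIntegrallyClosed_dvd`), `P` irreducible, both monic: equal. A complex root of `P` is `Λ`, `Λ⁻¹`, `w_j` or `w_j⁻¹` (Fac, QQC), so of modulus `≤ 1` if it is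
not `Λ`; `w_0` is a root of modulus 1 (`k ≥ 1`). -/
def SLM_stmt : Prop := ∀ (k : ℕ) (P : ℤ[X]) (Λ : ℝ) (w : Fin k → Circle), 1 ≤ k → 1 < Λ → P.Monic → Irreducible P → Fac P Λ w →
  IsSalem Λ ∧ minpoly ℤ Λ = P

/-- **LWB** (medium, 120 lines; from LOC COE IRR SLM CRI PVC). Many Short Salem numbers. Proof. `X` large, `n = ⌊X/(50k)⌋₊ ≥ n₀`. For `v` in the box (functions `Fin (k+1) → ℤ` in `Fintype.piFinset` of the intervals `Finset.Icc`, extended by `0`) let `Λ_v` be the number of LOC; COE, CRI: `Short (2k+2) Λ_v`,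
`Λ_v ≤ 50 k n ≤ X`; IRR, SLM: Salem, `minpoly ℤ Λ_v = PV k v`, degree `2k+2`. `v ↦ Λ_v` is injective: `PV k v` determines its coefficients `j+1`, `0 ≤ j ≤ k`, so `v j` (`min j (2k-j) = j`) (PVC). Number `(4kn + 1)(n+1)^k ≥ (n+1)^(k+1) ≥ (X/(50k))^(k+1)`. -/
def LWB_stmt : Prop := ∀ k : ℕ, 1 ≤ k → ∃ (c X₀ : ℝ), 0 < c ∧ ∀ X : ℝ, X₀ ≤ X → ∃ T : Finset ℝ,
  (∀ β ∈ T, β ∈ SS (2 * k + 2) X ∧ Short (2 * k + 2) β) ∧ c * X ^ (k + 1) ≤ (T.card : ℝ)

/-- **UPB** (medium-long, 150 lines; from REC and QQB). Few Salem numbers. Proof. `β ∈ SS (2k+2) X`, `P = minpoly ℤ β`, Fac with REC (the same `k` by the degree). `L = β + β⁻¹ ≤ X + 1`; the coefficients of `P = (X² - L X + 1) QQ w` have modulus `≤ (L + 2) 4^k ≤ 4^(k+1) X`, and `P_(2k+2-i) = P_i` (QQB: `P_i =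
q_(i-2) - L q_(i-1) + q_i`), `P_(2k+2) = 1`. So `P` is determined by `(P_1, ..., P_(k+1))`, a point of `[-M, M]^(k+1)`, `M = ⌊4^(k+1) X⌋`. And `P` determines `β`: if `minpoly ℤ β = minpoly ℤ β'` then `β'` is a root of `(X - β)(X - β⁻¹) QQ w`, `β' > 1`: `β' ≠ β⁻¹`, and a factor
`x² - 2 re w x + 1 ≥ (x-1)² > 0` for `x > 1`; so `β' = β`. Injection into a finite set with `(2M+1)^(k+1) ≤ (3 * 4^(k+1) X)^(k+1)` elements. -/
def UPB_stmt : Prop := ∀ k : ℕ, 1 ≤ k → ∃ C : ℝ, 0 < C ∧ ∀ X : ℝ, 1 ≤ X → (SS (2 * k + 2) X).Finite ∧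
  ((SS (2 * k + 2) X).ncard : ℝ) ≤ C * X ^ (k + 1)

/-- **PR2** (short-medium, 60 lines; from REC LWB UPB). Part (2). Proof. If `d ≠ 2k+2` for all `k ≥ 1`, `SS d X = ∅` (REC). Otherwise `δ = c/C`. -/
def PR2_stmt : Prop := ∀ d : ℕ, ∃ δ : ℝ, 0 < δ ∧ ∃ X₀ : ℝ, ∀ X : ℝ, X₀ ≤ X → (SS d X).Finite ∧
  δ * ((SS d X).ncard : ℝ) ≤ ((SS d X ∩ {β | Short d β}).ncard : ℝ)

/-! ## The theorem -/

open Classical in
/-- **MAIN**. -/
def MAIN_stmt : Prop := ∀ d : ℕ, ∃ δ : ℝ, 0 < δ ∧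
  (∀ β : ℝ, IsSalem β → (minpoly ℤ β).natDegree = d → ∃ X₀ : ℕ, ∀ X : ℕ, X₀ ≤ X → ∀ s : ℕ,
    δ * X ≤ (((Finset.Ico s (s + X)).filter (fun N => Short d (β ^ N))).card : ℝ)) ∧
  ∃ X₀ : ℝ, ∀ X : ℝ, X₀ ≤ X → (SS d X).Finite ∧
    δ * ((SS d X).ncard : ℝ) ≤ ((SS d X ∩ {β | Short d β}).ncard : ℝ)

theorem MAIN_of (h1 : PR1_stmt) (h2 : PR2_stmt) : MAIN_stmt := by
  intro d
  obtain ⟨δ₁, hδ₁, H1⟩ := h1 d
  obtain ⟨δ₂, hδ₂, X₁, H2⟩ := h2 d
  refine ⟨min δ₁ δ₂, lt_min hδ₁ hδ₂, ?_, X₁, ?_⟩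
  · intro β hβ hd
    obtain ⟨X₀, H⟩ := H1 β hβ hd
    refine ⟨X₀, fun X hX s => le_trans ?_ (H X hX s)⟩
    exact mul_le_mul_of_nonneg_right (min_le_left _ _) (Nat.cast_nonneg _)
  · intro X hX
    obtain ⟨hf, h⟩ := H2 X hX
    exact ⟨hf, le_trans (mul_le_mul_of_nonneg_right (min_le_right _ _) (Nat.cast_nonneg _)) h⟩

end Pool.Agent.PSA
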